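import Pool.Agent.Run7.h719.MO.Asm

/-!
# MP_9de1de_an, Q2: functions continuous on the open disc need not be analytic

For every `0 < α < 1` there is a function `f` that is smooth (in the real sense) on the open unit disc, with
`∮ f = 0` over every circle of centre `z` and radius `α (1 - |z|)`, `|z| < 1`, and that is not analytic.

Construction. `f w = conj w * W (|w|²)`. For a centre of modulus `ρ` the circle integral is a multiple of
`∫ θ in 0..π, (r + ρ cos θ) W (ρ² + r² + 2 ρ r cos θ)`, `r = α (1 - ρ)`, which involves `W` up to the square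
`x` of the outer radius `α + (1 - α) ρ`; as an equation for `W` near `x` it is an Abel integral equation.
Start with any smooth `W` that vanishes near `α²` and beyond; then the integrals vanish for small `ρ`. If
they vanish for `ρ ≤ ρ₀` they can be made to vanish for `1 - ρ ≥ (1 - ρ₀) / (1 + α)` by adding to `W` a smooth
function supported beyond the square `c` of the outer radius for `ρ₀`: in this range the inner end of the
circle is below `c`, so the correction solves an Abel equation with a smooth kernel, which becomes a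
Volterra equation of the second kind with a smooth kernel after an Abel transform. Iterate.
-/

set_option autoImplicit false

open Metric Complex
open scoped ContDiff

namespace Pool.Agent.Results.MP_9de1de_an.OpenDisc

theorem result :
    -- (1) the negative answer to Q2, for every `α` in `(0, 1)`
    (∀ α : ℝ, 0 < α → α < 1 → ∃ f : ℂ → ℂ,
      ContinuousOn f (ball (0 : ℂ) 1) ∧ ContDiffOn ℝ ∞ f (ball (0 : ℂ) 1) ∧
      (∀ z ∈ ball (0 : ℂ) 1, (∮ ζ in C(z, α * (1 - ‖z‖)), f ζ) = 0) ∧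
      ¬ AnalyticOn ℂ f (ball (0 : ℂ) 1)) ∧
    -- (2) the values on the disc of radius `α` can be prescribed
    (∀ α : ℝ, 0 < α → α < 1 → ∀ (s₀ : ℝ) (W : ℝ → ℝ), s₀ < α ^ 2 → ContDiff ℝ ∞ W →
      (∀ s, s₀ ≤ s → W s = 0) → ∃ f : ℂ → ℂ, ContDiffOn ℝ ∞ f (ball (0 : ℂ) 1) ∧
        (∀ z ∈ ball (0 : ℂ) 1, (∮ ζ in C(z, α * (1 - ‖z‖)), f ζ) = 0) ∧
        (∀ w : ℂ, ‖w‖ ≤ α → f w = (starRingEnd ℂ w) * ((W (‖w‖ ^ 2) : ℝ) : ℂ)) ∧
        (AnalyticOn ℂ f (ball (0 : ℂ) 1) → ∀ s, 0 < s → W s = 0)) := by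
  have part2 : ∀ α : ℝ, 0 < α → α < 1 → ∀ (s₀ : ℝ) (W : ℝ → ℝ), s₀ < α ^ 2 → ContDiff ℝ ∞ W →
      (∀ s, s₀ ≤ s → W s = 0) → ∃ f : ℂ → ℂ, ContDiffOn ℝ ∞ f (ball (0 : ℂ) 1) ∧
        (∀ z ∈ ball (0 : ℂ) 1, (∮ ζ in C(z, α * (1 - ‖z‖)), f ζ) = 0) ∧
        (∀ w : ℂ, ‖w‖ ≤ α → f w = (starRingEnd ℂ w) * ((W (‖w‖ ^ 2) : ℝ) : ℂ)) ∧
        (AnalyticOn ℂ f (ball (0 : ℂ) 1) → ∀ s, 0 < s → W s = 0) := by
    intro α h0 h1 s₀ W hs hW hz
    obtain ⟨f, hf1, hf2, hf3⟩ := Run7.h719.MO.main' α h0 h1 s₀ hs W hW hz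
    exact ⟨f, hf1, hf2, hf3, fun ha =>
      Run7.h719.MO.eq_zero_of_diff h0 h1 hs hz hf3 ha.differentiableOn⟩
  refine ⟨?_, part2⟩
  intro α h0 h1
  have hα2 : 0 < α ^ 2 := by positivity
  let bump : ContDiffBump (0 : ℝ) := ⟨α ^ 2 / 4, α ^ 2 / 2, by positivity, by linarith⟩
  obtain ⟨f, hf1, hf2, hf3, hf4⟩ := part2 α h0 h1 (α ^ 2 / 2) (fun s => bump s) (by linarith)
    bump.contDiff (by
      intro s hs
      apply bump.zero_of_le_dist
      rw [Real.dist_eq, sub_zero]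
      exact hs.trans (le_abs_self s))
  refine ⟨f, hf1.continuousOn, hf1, hf2, fun ha => ?_⟩
  have h3 := hf4 ha (α ^ 2 / 4) (by positivity)
  have h4 : bump (α ^ 2 / 4) = 1 := by
    apply bump.one_of_mem_closedBall
    rw [Metric.mem_closedBall, Real.dist_eq, sub_zero, abs_of_pos (by positivity)]
  simp only [h4] at h3
  exact one_ne_zero h3

end Pool.Agent.Results.MP_9de1de_an.OpenDisc
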